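import Mathlib

/-!
# Project KZ (MP_9bdf03_pr, frozen S19518)

The number of real zeros of Kac polynomials built from one i.i.d. standard normal sequence,
divided by `log n`, does not converge almost surely.
Definitions and the statements `S_…` of the parts.  Everything is Mathlib only.
-/

set_option autoImplicit false

open Finset MeasureTheory ProbabilityTheory Filter Topology

namespace Pool.Agent.W325.KZ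

/-- law of an i.i.d. standard normal sequence -/
noncomputable def ga : Measure (ℕ → ℝ) := Measure.infinitePi fun _ : ℕ => gaussianReal 0 1

instance : IsProbabilityMeasure ga := by unfold ga; infer_instance

/-- the polynomial with the `m` coefficients `a 0, …, a (m-1)` -/
noncomputable def pol (a : ℕ → ℝ) (m : ℕ) (x : ℝ) : ℝ := ∑ k ∈ range m, a k * x ^ k

/-- the first `n` coefficients in reversed order -/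
def rv (a : ℕ → ℝ) (n : ℕ) : ℕ → ℝ := fun k => a (n - 1 - k)

/-- `f` has at least `k` (different) zeros in `I` -/
def Zr (f : ℝ → ℝ) (I : Set ℝ) (k : ℕ) : Prop :=
  ∃ S : Finset ℝ, k ≤ S.card ∧ ∀ x ∈ S, x ∈ I ∧ f x = 0

/-- some critical point `x` with `1 - s ≤ |x| ≤ 1` has a critical value of size at most `u` -/
def Cr (a : ℕ → ℝ) (n : ℕ) (s u : ℝ) : Prop :=
  ∃ x : ℝ, 1 - s ≤ |x| ∧ |x| ≤ 1 ∧ deriv (pol a n) x = 0 ∧ |pol a n x| ≤ u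

/-- the number of real zeros (with multiplicity) -/
noncomputable def NR (a : ℕ → ℝ) (n : ℕ) : ℕ :=
  (∑ i ∈ range n, Polynomial.C (a i) * Polynomial.X ^ i).roots.card

/-- the points at which the sign alternates -/
noncomputable def yy (j : ℕ) : ℝ := 1 - Real.exp (-(Real.pi / 6 * j))

/-- the radius `1 - q^(-12)` -/
noncomputable def rr (q : ℕ) : ℝ := 1 - 1 / (q : ℝ) ^ 12

/-- the good event for the lower polynomial -/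
def Good (a : ℕ → ℝ) (q n K₁ T : ℕ) : Prop :=
  Zr (pol a n) Set.univ K₁ ∧ ¬ Zr (pol (rv a n) n) (Set.Icc (-rr q) (rr q)) T ∧
    ¬ Cr a n 1 (1 / (q : ℝ)) ∧ ¬ Cr a n (1 / (q : ℝ) ^ 40) ((q : ℝ) ^ 17) ∧
    ¬ Cr (rv a n) n (1 / (q : ℝ) ^ 12) ((q : ℝ) ^ 5) ∧ ∀ k < n, |a k| ≤ n

/-- the properties of the special top coefficients -/
def Sp (C : ℝ) (m J : ℕ) (b : ℕ → ℝ) : Prop :=
  (∀ j, 1 ≤ j → j ≤ J → 1 ≤ (-1) ^ j * pol b m (yy j)) ∧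
    (∀ y : ℝ, |y| ≤ 1 → |pol b m y| ≤ C * Real.sqrt m) ∧ ∀ k < m, |b k| ≤ C * m

/-! ### generic statements on the measure -/

/-- INJ -/
def S_INJ : Prop := ∀ (σ : ℕ → ℕ) (S : Set ℕ), Set.InjOn σ S → ∀ A : Set (ℕ → ℝ),
  MeasurableSet A → DependsOn (fun a => a ∈ A) S → ga {a | (fun k => a (σ k)) ∈ A} = ga A

/-- SIGN -/
def S_SIGN : Prop := ∀ A : Set (ℕ → ℝ), MeasurableSet A →
  ga {a | (fun k => (-1) ^ k * a k) ∈ A} = ga A ∧ ga {a | (fun k => -a k) ∈ A} = ga A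

/-- IND: independence of events which depend on disjoint sets of coordinates -/
def S_IND : Prop := ∀ (n : ℕ) (A : ℕ → Set (ℕ → ℝ)) (S : ℕ → Set ℕ),
  (∀ i < n, MeasurableSet (A i) ∧ DependsOn (fun a => a ∈ A i) (S i)) →
  (∀ i < n, ∀ j < n, i ≠ j → Disjoint (S i) (S j)) →
  ga (⋂ i ∈ range n, A i) = ∏ i ∈ range n, ga (A i)

/-- JD: joint small ball probability of two linear forms -/
def S_JD : Prop := ∀ (D : ℕ) (c d : ℕ → ℝ) (α β Δ : ℝ), 0 ≤ α → 0 ≤ β → 0 < Δ →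
  Δ ≤ (∑ k ∈ range D, c k ^ 2) * (∑ k ∈ range D, d k ^ 2) - (∑ k ∈ range D, c k * d k) ^ 2 →
  ga {a | |∑ k ∈ range D, a k * c k| ≤ α ∧ |∑ k ∈ range D, a k * d k| ≤ β} ≤
    ENNReal.ofReal (α * β / Real.sqrt Δ)

/-- L1: first moment of a linear form -/
def S_L1 : Prop := ∀ (D : ℕ) (c : ℕ → ℝ),
  ∫⁻ a, ENNReal.ofReal |∑ k ∈ range D, a k * c k| ∂ga ≤
    ENNReal.ofReal (Real.sqrt (∑ k ∈ range D, c k ^ 2))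

/-! ### critical values -/

/-- SUM: power sums -/
def S_SUM : Prop := ∀ p : ℕ, ∃ C : ℝ, 0 < C ∧ ∀ (D : ℕ) (x S : ℝ), 0 ≤ x → x ≤ 1 → 1 ≤ S →
  ((D : ℝ) ≤ 2 * S ∨ x ≤ 1 - 1 / (2 * S)) →
  ∑ k ∈ range D, (k : ℝ) ^ p * x ^ k ≤ C * S ^ (p + 1)

/-- DET: lower bound for the determinant -/
def S_DET : Prop := ∃ c : ℝ, 0 < c ∧ ∀ (D : ℕ) (x S : ℝ), 2 ≤ D → 0 ≤ x → x ≤ 1 → 1 ≤ S →
  S ≤ D → 1 - 1 / S ≤ x →
  c * S ^ 4 ≤ (∑ k ∈ range D, (x ^ k) ^ 2) * (∑ k ∈ range D, ((k : ℝ) * x ^ (k - 1)) ^ 2) -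
    (∑ k ∈ range D, x ^ k * ((k : ℝ) * x ^ (k - 1))) ^ 2

/-- ZONE: small critical values in one zone -/
def S_ZONE : Prop := ∃ C : ℝ, 0 < C ∧ ∀ (D : ℕ) (α β S u : ℝ), 2 ≤ D → 0 ≤ α → α ≤ β → β ≤ 1 →
  1 ≤ S → S ≤ D → β - α ≤ 1 / S → 1 - 1 / S ≤ α → ((D : ℝ) ≤ 2 * S ∨ β ≤ 1 - 1 / (2 * S)) →
  0 ≤ u →
  ga {a | ∃ x ∈ Set.Icc α β, deriv (pol a D) x = 0 ∧ |pol a D x| ≤ u} ≤
    ENNReal.ofReal (C * Real.sqrt (u / Real.sqrt S))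

/-- CV: small critical values -/
def S_CV : Prop := ∃ C : ℝ, 0 < C ∧ ∀ (D : ℕ) (s u : ℝ), 2 ≤ D → 1 / (D : ℝ) ≤ s → s ≤ 1 →
  0 ≤ u → ga {a | Cr a D s u} ≤ ENNReal.ofReal (C * Real.sqrt (u * Real.sqrt s))

/-! ### deterministic statements -/

/-- STAB: stability of zeros -/
def S_STAB : Prop := ∀ (f g : ℝ → ℝ) (α β : ℝ) (k : ℕ), α ≤ β → ContDiff ℝ 1 f →
  ContinuousOn g (Set.Icc α β) → (∀ x ∈ Set.Icc α β, deriv f x = 0 → |g x| < |f x|) →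
  Zr f (Set.Icc α β) k → Zr (fun x => f x + g x) (Set.Icc α β) (k - 2)

/-- ALT: sign changes give zeros -/
def S_ALT : Prop := ∀ (f : ℝ → ℝ) (y : ℕ → ℝ) (J : ℕ), 1 ≤ J → StrictMono y →
  ContinuousOn f (Set.Icc (y 1) (y J)) →
  (∀ j, 1 ≤ j → j ≤ J → 0 < (-1) ^ j * f (y j)) → Zr f (Set.Icc (y 1) (y J)) (J - 1)

/-- ROOT: comparison with the multiset of roots -/
def S_ROOT : Prop := ∀ (a : ℕ → ℝ) (n k : ℕ),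
  ((∃ i < n, a i ≠ 0) → Zr (pol a n) Set.univ k → k ≤ NR a n) ∧
  ((∀ x, pol a n x = 0 → deriv (pol a n) x ≠ 0) → Zr (pol a n) Set.univ (NR a n))

/-- SPLA: the zeros of a polynomial in terms of the reversed polynomial -/
def S_SPLA : Prop := ∀ (a : ℕ → ℝ) (n K T : ℕ) (r : ℝ), 1 ≤ n → 0 < r → r < 1 →
  Zr (pol a n) Set.univ K → ¬ Zr (pol (rv a n) n) (Set.Icc (-r) r) T →
  ∃ k₁ k₂ k₃ : ℕ, K ≤ k₁ + k₂ + k₃ + T ∧ Zr (pol a n) (Set.Icc (-1) 1) k₁ ∧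
    Zr (pol (rv a n) n) (Set.Icc r 1) k₂ ∧ Zr (pol (rv a n) n) (Set.Icc (-1) (-r)) k₃

/-- SPLB: converse -/
def S_SPLB : Prop := ∀ (a : ℕ → ℝ) (n k₁ k₂ k₃ k₄ : ℕ) (r c : ℝ), 1 ≤ n → 0 < r → r < 1 →
  0 < c → c < r →
  Zr (pol a n) (Set.Icc (-1) 1) k₁ → Zr (pol (rv a n) n) (Set.Icc r 1) k₂ →
  Zr (pol (rv a n) n) (Set.Icc (-1) (-r)) k₃ → (∃ c' < r, Zr (pol (rv a n) n) (Set.Icc c c') k₄) →
  Zr (pol a n) Set.univ (k₁ + k₂ + k₃ + k₄ - 2)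

/-- SIMP: no small critical values, then all real zeros are simple -/
def S_SIMP : Prop := ∀ (a : ℕ → ℝ) (n : ℕ), 1 ≤ n → ¬ Cr a n 1 0 → ¬ Cr (rv a n) n 1 0 →
  ∀ x, pol a n x = 0 → deriv (pol a n) x ≠ 0

/-! ### measurability and almost sure simplicity -/

/-- MEAS -/
def S_MEAS : Prop := ∀ n : ℕ,
  (∀ (α β : ℝ) (k : ℕ), MeasurableSet {a | Zr (pol a n) (Set.Icc α β) k}) ∧
  (∀ k : ℕ, MeasurableSet {a | Zr (pol a n) Set.univ k}) ∧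
  (∀ s u : ℝ, MeasurableSet {a | Cr a n s u}) ∧
  Measurable (fun a : ℕ → ℝ => rv a n)

/-- AES: almost surely the number of roots counted with multiplicity is the number of zeros -/
def S_AES : Prop := ∀ n : ℕ, 1 ≤ n →
  ∀ᵐ a ∂ga, ∀ k, k ≤ NR a n ↔ Zr (pol a n) Set.univ k

/-! ### special top coefficients -/

/-- BIN: coefficients of `Re (1-y)^(-1/2-6i)` -/
def S_BIN : Prop := ∃ (h : ℕ → ℝ) (C : ℝ), 0 < C ∧ (∀ k, |h k| ≤ C / Real.sqrt (k + 1)) ∧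
  ∀ y : ℝ, 0 ≤ y → y < 1 →
    HasSum (fun k => h k * y ^ k) (Real.cos (6 * Real.log (1 - y)) / Real.sqrt (1 - y))

/-- CM: Cameron-Martin inequality for symmetric sets -/
def S_CM : Prop := ∀ (m : ℕ) (S : Set (ℕ → ℝ)) (h : ℕ → ℝ), MeasurableSet S →
  DependsOn (fun a => a ∈ S) {k | k < m} → (∀ a ∈ S, (fun k => -a k) ∈ S) →
  ENNReal.ofReal (Real.exp (-(∑ k ∈ range m, h k ^ 2) / 2)) * ga S ≤
    ga {a | (fun k => a k - h k) ∈ S}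

/-- SUPB: the maximum of a random polynomial on `[-1, 1]` -/
def S_SUPB : Prop := ∃ C : ℝ, 0 < C ∧ ∀ L : ℕ, 1 ≤ L →
  MeasurableSet {a : ℕ → ℝ | ∀ t : ℝ, |t| ≤ 1 → |pol a L t| ≤ C * Real.sqrt L} ∧
  ga {a : ℕ → ℝ | ∀ t : ℝ, |t| ≤ 1 → |pol a L t| ≤ C * Real.sqrt L}ᶜ ≤ 4⁻¹

/-- BLK: typical noise -/
def S_BLK : Prop := ∃ C : ℝ, 0 < C ∧ ∀ M : ℕ, ∃ S : Set (ℕ → ℝ), MeasurableSet S ∧
  DependsOn (fun a => a ∈ S) {k | k < 2 ^ M} ∧ (∀ a ∈ S, (fun k => -a k) ∈ S) ∧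
  (2⁻¹ : ENNReal) ^ (M + 1) ≤ ga S ∧ ∀ b ∈ S,
    (∀ y : ℝ, 0 ≤ y → y < 1 → |pol b (2 ^ M) y| ≤ C / Real.sqrt (1 - y)) ∧
    (∀ y : ℝ, |y| ≤ 1 → |pol b (2 ^ M) y| ≤ C * Real.sqrt (2 ^ M : ℕ)) ∧
    ∀ k < 2 ^ M, |b k| ≤ C * (2 ^ M : ℕ)

/-- SPEC: the special event -/
def S_SPEC : Prop := ∃ (C : ℝ) (M₀ : ℕ), 0 < C ∧ ∀ M J : ℕ, M₀ ≤ M → 1 ≤ J →
  Real.exp (Real.pi / 6 * J) ≤ Real.sqrt (2 ^ M : ℕ) →
  ∃ E : Set (ℕ → ℝ), MeasurableSet E ∧ DependsOn (fun a => a ∈ E) {k | k < 2 ^ M} ∧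
    ENNReal.ofReal (((2 ^ M : ℕ) : ℝ) ^ (-C)) ≤ ga E ∧ ∀ b ∈ E, Sp C (2 ^ M) J b

/-! ### typical behaviour under the hypothesis -/

/-- convergence in probability to `2 / π` -/
def HP : Prop := ∀ η : ℝ, 0 < η → ∀ ε : ℝ, 0 < ε → ∃ n₀ : ℕ, ∀ n, n₀ ≤ n →
  ga {a | η * Real.log n < |(NR a n : ℝ) - 2 / Real.pi * Real.log n|} ≤ ENNReal.ofReal ε

/-- TYP: zeros in `[-(1-q^(-12)), 1-q^(-12)]` -/
def S_TYP : Prop := HP → ∀ η : ℝ, 0 < η → ∀ ε : ℝ, 0 < ε → ∃ q₀ : ℕ, ∀ q, q₀ ≤ q →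
  ∀ n T : ℕ, q ^ 17 ≤ n → (16 / Real.pi + η) * Real.log q ≤ T →
    ga {a | Zr (pol a n) (Set.Icc (-rr q) (rr q)) T} ≤ ENNReal.ofReal ε

/-- GOOD -/
def S_GOOD : Prop := HP → ∀ K : ℕ, 50 ≤ K → ∀ η : ℝ, 0 < η → ∀ ε : ℝ, 0 < ε →
  ∃ q₀ : ℕ, ∀ q, q₀ ≤ q → ∀ n : ℕ, q ^ K ≤ n → ∃ B : Set (ℕ → ℝ),
    MeasurableSet B ∧ DependsOn (fun a => a ∈ B) {k | k < n} ∧ ga B ≤ ENNReal.ofReal ε ∧
    ∀ a, a ∉ B → ∀ K₁ T : ℕ, (K₁ : ℝ) ≤ (2 / Real.pi - η) * (K * Real.log q) →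
      (16 / Real.pi + η) * Real.log q ≤ T → Good a q n K₁ T

/-- STEP -/
def S_STEP : Prop := ∀ (C : ℝ) (K : ℕ), 0 < C → 50 ≤ K → ∃ q₀ : ℕ, ∀ q, q₀ ≤ q → ∀ n : ℕ,
  q ^ K ≤ n → n ≤ 2 * q ^ K → ∀ (a : ℕ → ℝ) (K₁ T J : ℕ), 1 ≤ J →
  Real.exp (Real.pi / 6 * J) ≤ (q : ℝ) ^ 4 → Good a q n K₁ T →
  Sp C (q ^ 8) J (rv a (n + q ^ 8)) → ∀ k, k + T + 10 ≤ K₁ + J →
    Zr (pol a (n + q ^ 8)) Set.univ k

/-- FIN -/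
def S_FIN : Prop := HP → ∃ (K : ℕ) (η : ℝ) (q₀ : ℕ), 1 ≤ K ∧ 0 < η ∧ ∀ r : ℕ, q₀ ≤ 2 ^ r →
  (2⁻¹ : ENNReal) ≤ ga {a | ∃ n : ℕ, (2 ^ r) ^ K ≤ n ∧ ∃ k : ℕ, Zr (pol a n) Set.univ k ∧
    (2 / Real.pi + η) * Real.log n ≤ k}

/-- END: contradiction with almost sure convergence -/
def S_END : Prop := ¬ ∀ᵐ a ∂ga, Tendsto (fun n : ℕ => (NR a (n + 1) : ℝ) / Real.log n) atTop
  (𝓝 (2 / Real.pi))

end Pool.Agent.W325.KZ
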