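import Pool.Agent.W325.KZ.Defs

/-! KZ-SUM: power sums. -/

set_option autoImplicit false
open Finset
namespace Pool.Agent.W325.KZ

theorem sum' : S_SUM := by
  intro p
  refine ⟨(p.factorial : ℝ) * 2 ^ (p + 1), by positivity, ?_⟩
  intro D x S hx0 hx1 hS h
  have hp1 : (1 : ℝ) ≤ p.factorial := by exact_mod_cast Nat.one_le_iff_ne_zero.2 (Nat.factorial_ne_zero p)
  have hS0 : 0 < S := by linarith
  rcases h with h | h
  · have h1 : ∑ k ∈ range D, (k : ℝ) ^ p * x ^ k ≤ ∑ k ∈ range D, (D : ℝ) ^ p := by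
      refine Finset.sum_le_sum fun k hk => ?_
      have hk' : (k : ℝ) ≤ D := by exact_mod_cast (mem_range.1 hk).le
      have h2 : (k : ℝ) ^ p ≤ (D : ℝ) ^ p := pow_le_pow_left₀ (by positivity) hk' p
      have h3 : x ^ k ≤ 1 := pow_le_one₀ hx0 hx1
      calc (k : ℝ) ^ p * x ^ k ≤ (D : ℝ) ^ p * 1 := by
            apply mul_le_mul h2 h3 (by positivity) (by positivity)
        _ = (D : ℝ) ^ p := by ring
    rw [Finset.sum_const, card_range, nsmul_eq_mul] at h1
    have h4 : (D : ℝ) * (D : ℝ) ^ p = (D : ℝ) ^ (p + 1) := by ring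
    have h5 : (D : ℝ) ^ (p + 1) ≤ (2 * S) ^ (p + 1) := pow_le_pow_left₀ (by positivity) h _
    calc _ ≤ (2 * S) ^ (p + 1) := by linarith
      _ = 1 * 2 ^ (p + 1) * S ^ (p + 1) := by ring
      _ ≤ (p.factorial : ℝ) * 2 ^ (p + 1) * S ^ (p + 1) := by gcongr
  · have hx : x < 1 := by
      have : 0 < 1 / (2 * S) := by positivity
      linarith
    have hn : ‖x‖ < 1 := by rw [Real.norm_eq_abs, abs_of_nonneg hx0]; exact hx
    have hsum := tsum_choose_mul_geometric_of_norm_lt_one p hn
    have hsm := summable_choose_mul_geometric_of_norm_lt_one p hn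
    have h1 : ∑ k ∈ range D, (k : ℝ) ^ p * x ^ k ≤
        ∑ k ∈ range D, (p.factorial : ℝ) * (((k + p).choose p : ℝ) * x ^ k) := by
      refine Finset.sum_le_sum fun k _ => ?_
      rw [← mul_assoc]
      refine mul_le_mul_of_nonneg_right ?_ (by positivity)
      have h2 := Nat.pow_succ_le_ascFactorial (k + 1) p
      have h3 := Nat.ascFactorial_eq_factorial_mul_choose k p
      have h4 : k ^ p ≤ (k + 1) ^ p := Nat.pow_le_pow_left (Nat.le_succ k) p
      have h5 : k ^ p ≤ p.factorial * (k + p).choose p := by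
        rw [← h3]
        exact h4.trans h2
      exact_mod_cast h5
    rw [← Finset.mul_sum] at h1
    have h6 : ∑ k ∈ range D, (((k + p).choose p : ℝ) * x ^ k) ≤ 1 / (1 - x) ^ (p + 1) := by
      rw [← hsum]
      exact hsm.sum_le_tsum _ (fun k _ => by positivity)
    have h7 : 1 / (1 - x) ^ (p + 1) ≤ (2 * S) ^ (p + 1) := by
      rw [← one_div_pow]
      apply pow_le_pow_left₀ (by have : 0 < 1 - x := by linarith
                                 positivity)
      rw [div_le_iff₀ (by linarith)]
      have : 1 / (2 * S) ≤ 1 - x := by linarith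
      rw [div_le_iff₀ (by positivity)] at this
      linarith
    calc _ ≤ (p.factorial : ℝ) * (2 * S) ^ (p + 1) := by
          refine h1.trans ?_
          have := h6.trans h7
          gcongr
      _ = _ := by ring

end Pool.Agent.W325.KZ
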