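import Pool.Agent.W325.KZ.Defs
import Pool.Agent.W325.KZ.Sum
import Pool.Agent.W639.KZ.Inj
import Pool.Agent.W928.KZ.JD
import Pool.Agent.W513.KZ.Det
import Pool.Agent.W822.KZ.Zone
import Pool.Agent.W672.KZ.Cv
import Pool.Agent.W721.KZ.IND
import Pool.Agent.W741.KZ.Stab
import Pool.Agent.W782.KZ.Alt
import Pool.Agent.W782.KZ.Root
import Pool.Agent.W704.KZ.Spl
import Pool.Agent.W589.KZ.Meas
import Pool.Agent.W382.KZ.Aes
import Pool.Agent.W253.KZ.Bin
import Pool.Agent.W799.KZ.CM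
import Pool.Agent.W721.KZ.L1
import Pool.Agent.W789.KZ.SUPB
import Pool.Agent.W465.KZ.Blk
import Pool.Agent.W479.KZ.Spec
import Pool.Agent.W135.KZ.Typ
import Pool.Agent.W73.KZ.GoodEv
import Pool.Agent.W494.KZ.Step
import Pool.Agent.W540.KZ.FIN
import Pool.Agent.W570.KZ.End

/-! Project KZ: the final assembly (real roots of random Gaussian polynomials:
almost sure convergence of `N_n / log n` to `2 / π` fails). -/

set_option autoImplicit false

namespace Pool.Agent.W325.KZ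

theorem end_of_cv (hCV : S_CV) : S_END := by
  have hI := Pool.Agent.W639.KZ.Inj.inj
  have hN := Pool.Agent.W721.KZIND.ind
  have hM := Pool.Agent.W589.KZ.Meas.meas
  have hR := Pool.Agent.W782.KZ.root
  have hT := Pool.Agent.W741.KZ.stab
  have hA := Pool.Agent.W382.KZ.Aes.aes hCV hI hR Pool.Agent.W782.KZ.simp hM
  have hTyp := Pool.Agent.W135.KZ.typ hCV hT hI hN hM hR Pool.Agent.W704.KZ.splb
  have hG := Pool.Agent.W73.KZ.good hTyp hCV hI hM hA
  have hBlk := Pool.Agent.W465.KZ.blk (Pool.Agent.W789.KZ.supb Pool.Agent.W721.KZL1.l1) hI hN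
  have hS := Pool.Agent.W479.KZ.spec Pool.Agent.W253.KZ.bin Pool.Agent.W799.KZ.cm hBlk
  have hSt := Pool.Agent.W494.KZ.step hT Pool.Agent.W782.KZ.alt Pool.Agent.W704.KZ.spla
    Pool.Agent.W704.KZ.splb
  have hF := Pool.Agent.W540.KZ.fin hS hG hSt hN hI
  exact Pool.Agent.W570.KZ.endd hF hA hM hR

theorem end_of_sum (hSUM : S_SUM) : S_END :=
  end_of_cv (Pool.Agent.W672.KZ.cv
    (Pool.Agent.W822.KZ.Zone.zone Pool.Agent.W928.KZ.jd Pool.Agent.W721.KZL1.l1 hSUM
      Pool.Agent.W513.KZ.det_ge) Pool.Agent.W639.KZ.Inj.sgn)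

end Pool.Agent.W325.KZ
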